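import Pool.Agent.H82.G.R_seed8.H919R4.AS.Rep

set_option autoImplicit false
set_option linter.unusedSectionVars false

open scoped Matrix ENNReal Pointwise symmDiff
open Filter Topology

namespace Pool.Agent.H919R4.AS

open Pool.Agent.H496R3.ZS (Ell dl dl_apply xi permRep IsAmenable integ integ_apply permRep_dl
  isometry_dl orthonormal_xi permRep_xi norm_sum_sub_sum permRep_apply)
open Pool.Agent.H919R4.ZS (RedC redCstar groupRing toRed toOp toOp_mem lreg lregHom Hil Op FinRes
  valR contraction)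

noncomputable section

variable {G : Type} [Group G] {C : Subgroup G}

/-- the closure of the graph -/
def Gam (m : Mult G (G ⧸ C)) :
    Subalgebra ℂ ((Ell G →L[ℂ] Ell G) × (Ell (G ⧸ C) →L[ℂ] Ell (G ⧸ C))) :=
  ((integ G G).prod m.integ).range.topologicalClosure

lemma Gam_norm (hC : IsAmenable C) (m : Mult G (G ⧸ C))
    {p : (Ell G →L[ℂ] Ell G) × (Ell (G ⧸ C) →L[ℂ] Ell (G ⧸ C))} (hp : p ∈ Gam m) :
    ‖p.2‖ ≤ ‖p.1‖ := by
  have hcl : IsClosed {p : (Ell G →L[ℂ] Ell G) × (Ell (G ⧸ C) →L[ℂ] Ell (G ⧸ C)) |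
      ‖p.2‖ ≤ ‖p.1‖} := isClosed_le (by fun_prop) (by fun_prop)
  have h1 : (Gam m : Set ((Ell G →L[ℂ] Ell G) × (Ell (G ⧸ C) →L[ℂ] Ell (G ⧸ C)))) ⊆
      {p | ‖p.2‖ ≤ ‖p.1‖} := by
    rw [Gam, Subalgebra.topologicalClosure_coe]
    refine closure_minimal ?_ hcl
    rintro _ ⟨x, rfl⟩
    exact norm_integ_le hC m x
  exact h1 hp

lemma Gam_unique (hC : IsAmenable C) (m : Mult G (G ⧸ C))
    {a : Ell G →L[ℂ] Ell G} {b b' : Ell (G ⧸ C) →L[ℂ] Ell (G ⧸ C)} (h : (a, b) ∈ Gam m)
    (h' : (a, b') ∈ Gam m) : b = b' := by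
  have h1 := Gam_norm hC m ((Gam m).sub_mem h h')
  simp only [Prod.mk_sub_mk, sub_self, norm_zero] at h1
  exact sub_eq_zero.1 (norm_le_zero_iff.1 h1)

lemma Gam_exists (hC : IsAmenable C) (m : Mult G (G ⧸ C)) (a : Ell G →L[ℂ] Ell G)
    (ha : a ∈ closure (Set.range (integ G G))) : ∃ b, (a, b) ∈ Gam m := by
  obtain ⟨s, hs, hlim⟩ := mem_closure_iff_seq_limit.1 ha
  choose x hx using hs
  have hcauchy : CauchySeq (fun n => m.integ (x n)) := by
    have h1 : CauchySeq s := hlim.cauchySeq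
    rw [Metric.cauchySeq_iff] at h1 ⊢
    intro ε hε
    obtain ⟨N, hN⟩ := h1 ε hε
    refine ⟨N, fun i hi j hj => ?_⟩
    have h2 := hN i hi j hj
    rw [dist_eq_norm] at h2 ⊢
    refine lt_of_le_of_lt ?_ h2
    rw [← map_sub, ← hx, ← hx, ← map_sub]
    exact norm_integ_le hC m _
  obtain ⟨b, hb⟩ := cauchySeq_tendsto_of_complete hcauchy
  refine ⟨b, ?_⟩
  rw [← SetLike.mem_coe, Gam, Subalgebra.topologicalClosure_coe]
  refine mem_closure_of_tendsto (hlim.prodMk_nhds hb) (Eventually.of_forall fun n => ?_)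
  refine ⟨x n, ?_⟩
  rw [← hx n]
  rfl

lemma Gam_group (m : Mult G (G ⧸ C)) (g : G) : (permRep G G g, m.rep g) ∈ Gam m := by
  refine Subalgebra.le_topologicalClosure _ ⟨MonoidAlgebra.single g 1, ?_⟩
  refine Prod.ext ?_ ?_
  · exact Pool.Agent.H496R3.ZS.integ_single g
  · change m.integ (MonoidAlgebra.single g 1) = _
    rw [Mult.integ, MonoidAlgebra.lift_single, one_smul]

lemma valR_mem (x : RedC G) :
    (valR x : Ell G →L[ℂ] Ell G) ∈ closure (Set.range (integ G G)) := by
  have h : (Subtype.val (p := fun y => y ∈ redCstar G) x : Op G) ∈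
    closure ((groupRing G : Subring (Op G)) : Set (Op G)) := Subtype.property x
  have h3 : groupRing G ≤ (show Subring (Op G) from (integ G G).toRingHom.range) := by
    refine Subring.closure_le.2 ?_
    rintro _ ⟨c, g, rfl⟩
    refine ⟨MonoidAlgebra.single g c, ?_⟩
    change integ G G (MonoidAlgebra.single g c) = _
    rw [integ, MonoidAlgebra.lift_single]
    rfl
  have h2 : ((groupRing G : Subring (Op G)) : Set (Op G)) ⊆
    (show Set (Op G) from Set.range (integ G G)) := fun y hy => h3 hy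
  exact closure_mono h2 h

/-- the integral group ring acting through the twisted representation -/
def LL {Z : Type} [MulAction G Z] (m : Mult G Z) : MonoidAlgebra ℤ G →+* (Ell Z →L[ℂ] Ell Z) :=
  MonoidAlgebra.liftNCRingHom (Int.castRingHom _) m.rep (fun x y => Int.cast_commute x (m.rep y))

lemma LL_single {Z : Type} [MulAction G Z] (m : Mult G Z) (g : G) (c : ℤ) :
    LL m (MonoidAlgebra.single g c) = c • m.rep g := by
  change MonoidAlgebra.liftNC _ _ _ = _
  rw [MonoidAlgebra.liftNC_single]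
  change ((c : ℤ) : Ell Z →L[ℂ] Ell Z) * m.rep g = _
  rw [← zsmul_eq_mul]

/-- the extension of the twisted representation to `C*_r(G)` -/
theorem exists_ext (hC : IsAmenable C) (m : Mult G (G ⧸ C)) :
    ∃ t : RedC G →+* (Ell (G ⧸ C) →L[ℂ] Ell (G ⧸ C)), ∀ a, t (toRed G a) = LL m a := by
  choose t ht using fun x : RedC G => Gam_exists hC m _ (valR_mem x)
  have hadd : ∀ a b, t (a + b) = t a + t b := by
    intro a b
    refine Gam_unique hC m (ht (a + b)) ?_
    rw [map_add]
    exact (Gam m).add_mem (ht a) (ht b)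
  have hmul : ∀ a b, t (a * b) = t a * t b := by
    intro a b
    refine Gam_unique hC m (ht (a * b)) ?_
    rw [map_mul]
    exact (Gam m).mul_mem (ht a) (ht b)
  have hone : t 1 = 1 := by
    refine Gam_unique hC m (ht 1) ?_
    rw [map_one]
    exact (Gam m).one_mem
  have hzero : t 0 = 0 := by
    refine Gam_unique hC m (ht 0) ?_
    rw [map_zero]
    exact (Gam m).zero_mem
  refine ⟨⟨⟨⟨t, hone⟩, hmul⟩, hzero, hadd⟩, ?_⟩
  intro a
  change t (toRed G a) = LL m a
  refine MonoidAlgebra.induction_linear a ?_ ?_ ?_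
  · rw [map_zero, map_zero, hzero]
  · intro x y hx hy
    rw [map_add, map_add, hadd, hx, hy]
  · intro g r
    refine Gam_unique hC m (ht _) ?_
    rw [LL_single, Pool.Agent.H919R4.ZS.coe_toRed, Pool.Agent.H919R4.ZS.L_single]
    exact zsmul_mem (Gam_group m g) r

/-! ### the action on tuples -/

variable {Z : Type} [MulAction G Z]

/-- matrices of operators acting on tuples -/
def act {a b : ℕ} (M : Matrix (Fin a) (Fin b) (Ell Z →L[ℂ] Ell Z)) (v : Fin b → Ell Z) :
    Fin a → Ell Z := fun i => ∑ j, M i j (v j)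

lemma act_mul {a b c : ℕ} (M : Matrix (Fin a) (Fin b) (Ell Z →L[ℂ] Ell Z))
    (N : Matrix (Fin b) (Fin c) (Ell Z →L[ℂ] Ell Z)) (v : Fin c → Ell Z) :
    act (M * N) v = act M (act N v) := by
  funext i
  simp only [act, Matrix.mul_apply, sum_apply, map_sum]
  rw [Finset.sum_comm]
  rfl

lemma act_add {a b : ℕ} (M N : Matrix (Fin a) (Fin b) (Ell Z →L[ℂ] Ell Z)) (v : Fin b → Ell Z) :
    act (M + N) v = act M v + act N v := by
  funext i
  simp [act, Finset.sum_add_distrib]

lemma act_one {a : ℕ} (v : Fin a → Ell Z) :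
    act (1 : Matrix (Fin a) (Fin a) (Ell Z →L[ℂ] Ell Z)) v = v := by
  funext i
  simp only [act]
  rw [Finset.sum_eq_single i]
  · simp
  · intro j _ hj; simp [hj.symm]
  · simp

lemma act_zero {a b : ℕ} (M : Matrix (Fin a) (Fin b) (Ell Z →L[ℂ] Ell Z)) :
    act M (0 : Fin b → Ell Z) = 0 := by
  funext i
  simp [act]

/-- the three vanishing statements for the twisted cochains -/
structure Van (X : FinRes G) (m : Mult G Z) : Prop where
  h0 : ∀ v : Fin (X.n 0) → Ell Z, act ((X.d 0).map (LL m)) v = 0 → v = 0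
  h1 : ∀ v : Fin (X.n 1) → Ell Z, act ((X.d 1).map (LL m)) v = 0 →
    ∃ w, act ((X.d 0).map (LL m)) w = v
  h2 : ∀ v : Fin (X.n 2) → Ell Z, act ((X.d 2).map (LL m)) v = 0 →
    ∃ w, act ((X.d 1).map (LL m)) w = v

theorem van_of_homology (X : FinRes G) (hC : IsAmenable C) (m : Mult G (G ⧸ C))
    (h0 : Subsingleton (X.homology (toRed G) 0)) (h1 : Subsingleton (X.homology (toRed G) 1))
    (h2 : Subsingleton (X.homology (toRed G) 2)) : Van X m := by
  obtain ⟨s0, s1, s2, e0, e1, e2⟩ := contraction X (toRed G) h0 h1 h2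
  obtain ⟨t, ht⟩ := exists_ext hC m
  have key : ∀ i, ((X.d i).map (toRed G)).map t = (X.d i).map (LL m) := by
    intro i
    refine funext fun j => funext fun k => ?_
    exact ht (X.d i j k)
  have f0 : s0.map t * (X.d 0).map (LL m) = 1 := by
    have := Pool.Agent.H919R4.ZS.map_ident0 t _ _ e0
    rwa [key 0] at this
  have f1 : (X.d 0).map (LL m) * s0.map t + s1.map t * (X.d 1).map (LL m) = 1 := by
    have := Pool.Agent.H919R4.ZS.map_ident t _ _ _ _ e1
    rwa [key 0, key 1] at this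
  have f2 : (X.d 1).map (LL m) * s1.map t + s2.map t * (X.d 2).map (LL m) = 1 := by
    have := Pool.Agent.H919R4.ZS.map_ident t _ _ _ _ e2
    rwa [key 1, key 2] at this
  refine ⟨?_, ?_, ?_⟩
  · intro v hv
    rw [← act_one v, ← f0, act_mul, hv, act_zero]
  · intro v hv
    refine ⟨act (s0.map t) v, ?_⟩
    conv_rhs => rw [← act_one v, ← f1, act_add, act_mul, act_mul, hv, act_zero, add_zero]
  · intro v hv
    refine ⟨act (s1.map t) v, ?_⟩
    conv_rhs => rw [← act_one v, ← f2, act_add, act_mul, act_mul, hv, act_zero, add_zero]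

end

end Pool.Agent.H919R4.AS
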